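import Mathlib
import Pool.Agent.H555R4.DY.Stmts
import Pool.Agent.H555R4.LW.U1

set_option autoImplicit false

open Finset

namespace Pool.Agent.H469R10.DYV

open Pool.Agent.H555R4.LW (rp sp StA)
open Pool.Agent.H555R4.LW.U1 (sp_mul_rp)
open Pool.Agent.H555R4.DY

theorem rp_mul {q a b : ℕ} (ha : a ≠ 0) (hb : b ≠ 0) : rp q (a * b) = rp q a * rp q b := by
  unfold rp
  have h := Nat.perm_primeFactorsList_mul ha hb
  rw [(h.filter _).prod_eq, List.filter_append, List.prod_append]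

theorem sp_mul {q a b : ℕ} (ha : a ≠ 0) (hb : b ≠ 0) : sp q (a * b) = sp q a * sp q b := by
  unfold sp
  have h := Nat.perm_primeFactorsList_mul ha hb
  rw [(h.filter _).prod_eq, List.filter_append, List.prod_append]

theorem rp_prime {q l : ℕ} (hl : l.Prime) (hq : q < l) : rp q l = l := by
  unfold rp
  rw [Nat.primeFactorsList_prime hl]
  simp [hq]

theorem sp_prime {q l : ℕ} (hl : l.Prime) (hq : q < l) : sp q l = 1 := by
  unfold sp
  rw [Nat.primeFactorsList_prime hl]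
  simp [hq]

theorem rp_smooth {q s : ℕ} (hs0 : s ≠ 0) (hs : sp q s = s) : rp q s = 1 := by
  have h := sp_mul_rp q s hs0
  rw [hs] at h
  exact Nat.eq_of_mul_eq_mul_left (Nat.pos_of_ne_zero hs0) (by rw [h, mul_one])

theorem lt_rp {q n : ℕ} (h : (rp q n).Prime) : q < rp q n := by
  have h1 : (rp q n) ∣ (n.primeFactorsList.filter (fun r => q < r)).prod := dvd_refl _
  rw [h.prime.dvd_prod_iff] at h1
  obtain ⟨a, ha, hd⟩ := h1
  rw [List.mem_filter] at ha
  have ha1 : a.Prime := Nat.prime_of_mem_primeFactorsList ha.1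
  have := (Nat.prime_dvd_prime_iff_eq h ha1).1 hd
  rw [this]
  simpa using ha.2

theorem sp_sp {q n : ℕ} (hn : n ≠ 0) (h : (rp q n).Prime) : sp q (sp q n) = sp q n := by
  have h0 := sp_mul_rp q n hn
  have hs : sp q n ≠ 0 := by
    intro h1
    rw [h1, zero_mul] at h0
    exact hn h0.symm
  have h2 := sp_mul (q := q) hs h.ne_zero
  rw [h0, sp_prime h (lt_rp h), mul_one] at h2
  exact h2.symm

theorem fiber {q p m s : ℕ} (hs0 : 0 < s) (hs : sp q s = s) :
    ((range (2 ^ q)).filter (fun n => (n % 2 ^ p = m ∧ (rp q n).Prime) ∧ sp q n = s)) =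
      ((Icc 1 ((2 ^ q - 1) / s)).filter (fun l => (l.Prime ∧ (s * l) % 2 ^ p = m) ∧ ¬ l ≤ q)).image
        (fun l => s * l) := by
  ext n
  simp only [mem_filter, mem_range, mem_image, mem_Icc, not_le]
  constructor
  · rintro ⟨hn, ⟨hm, hr⟩, hsn⟩
    have hn0 : n ≠ 0 := by
      rintro rfl
      simp [rp] at hr
      exact absurd hr (by decide)
    have h0 := sp_mul_rp q n hn0
    rw [hsn] at h0
    refine ⟨rp q n, ⟨⟨hr.one_lt.le, ?_⟩, ⟨hr, by rw [h0]; exact hm⟩, lt_rp hr⟩, h0⟩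
    rw [Nat.le_div_iff_mul_le hs0, mul_comm, h0]
    omega
  · rintro ⟨l, ⟨⟨hl1, hl2⟩, ⟨hl, hm⟩, hq⟩, rfl⟩
    rw [Nat.le_div_iff_mul_le hs0] at hl2
    have h3 : rp q (s * l) = l := by
      rw [rp_mul hs0.ne' hl.ne_zero, rp_smooth hs0.ne' hs, one_mul, rp_prime hl hq]
    have h4 : sp q (s * l) = s := by
      rw [sp_mul hs0.ne' hl.ne_zero, hs, sp_prime hl hq, mul_one]
    have h5 : 0 < 2 ^ q := by positivity
    refine ⟨?_, ⟨hm, by rw [h3]; exact hl⟩, h4⟩
    have : s * l = l * s := mul_comm _ _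
    omega

theorem fiber_card {q p m s : ℕ} (hs0 : 0 < s) (hs : sp q s = s) :
    ((range (2 ^ q)).filter (fun n => (n % 2 ^ p = m ∧ (rp q n).Prime) ∧ sp q n = s)).card =
      ((Icc 1 ((2 ^ q - 1) / s)).filter
        (fun l => (l.Prime ∧ (s * l) % 2 ^ p = m) ∧ ¬ l ≤ q)).card := by
  rw [fiber hs0 hs, card_image_of_injective]
  intro a b hab
  exact Nat.eq_of_mul_eq_mul_left hs0 hab

/-- odd residues -/
def Od (p : ℕ) : Finset ℕ := (range (2 ^ p)).filter (fun m => Odd m)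

theorem card_Od {p : ℕ} (hp : 1 ≤ p) : (Od p).card = 2 ^ (p - 1) := by
  have h : Od p = (range (2 ^ (p - 1))).image (fun k => 2 * k + 1) := by
    ext m
    have h2 : 2 ^ p = 2 * 2 ^ (p - 1) := by
      rw [← pow_succ']
      congr 1
      omega
    simp only [Od, mem_filter, mem_range, mem_image]
    constructor
    · rintro ⟨h1, k, hk⟩
      exact ⟨k, by omega, by omega⟩
    · rintro ⟨k, hk, rfl⟩
      exact ⟨by omega, k, rfl⟩
  rw [h, card_image_of_injective, card_range]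
  intro a b hab
  simp only at hab
  omega

theorem var_le (S : Finset ℕ) (f : ℕ → ℝ) (c μ : ℝ) (h : μ * S.card = ∑ m ∈ S, f m) :
    ∑ m ∈ S, (f m - μ) ^ 2 ≤ ∑ m ∈ S, (f m - c) ^ 2 := by
  have h1 : ∑ m ∈ S, (f m - c) ^ 2 - ∑ m ∈ S, (f m - μ) ^ 2 = (S.card : ℝ) * (μ - c) ^ 2 := by
    rw [← sum_sub_distrib]
    have h2 : ∀ m ∈ S, (f m - c) ^ 2 - (f m - μ) ^ 2 = 2 * (μ - c) * f m + (c ^ 2 - μ ^ 2) := by
      intro m _
      ring
    rw [sum_congr rfl h2, sum_add_distrib, ← mul_sum, ← h, sum_const, nsmul_eq_mul]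
    ring
  have h3 : 0 ≤ (S.card : ℝ) * (μ - c) ^ 2 := by positivity
  linarith

theorem card_class {p q m : ℕ} (hpq : p ≤ q) :
    ((range (2 ^ q)).filter (fun n => n % 2 ^ p = m)).card ≤ 2 ^ (q - p) := by
  have h : ((range (2 ^ q)).filter (fun n => n % 2 ^ p = m)).card ≤ (range (2 ^ (q - p))).card := by
    apply card_le_card_of_injOn (fun n => n / 2 ^ p)
    · intro n hn
      simp only [coe_filter, mem_range, Set.mem_setOf_eq] at hn
      simp only [coe_range, Set.mem_Iio]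
      rw [Nat.div_lt_iff_lt_mul (by positivity), ← pow_add]
      rw [show q - p + p = q by omega]
      exact hn.1
    · intro a ha b hb hab
      simp only [coe_filter, mem_range, Set.mem_setOf_eq] at ha hb hab
      rw [← Nat.div_add_mod a (2 ^ p), ← Nat.div_add_mod b (2 ^ p), ha.2, hb.2, hab]
  simpa using h

/-- multiplication by an odd number permutes the odd residues -/
theorem sum_perm {p s : ℕ} (hp : 1 ≤ p) (hs : Odd s) (f : ℕ → ℝ) :
    ∑ a ∈ Od p, f ((s * a) % 2 ^ p) = ∑ m ∈ Od p, f m := by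
  have hmaps : ∀ a ∈ Od p, (s * a) % 2 ^ p ∈ Od p := by
    intro a ha
    simp only [Od, mem_filter, mem_range] at ha ⊢
    refine ⟨Nat.mod_lt _ (by positivity), ?_⟩
    have h2 : 2 ∣ 2 ^ p := dvd_pow_self 2 (by omega)
    rw [Nat.odd_iff, Nat.mod_mod_of_dvd _ h2, ← Nat.odd_iff]
    exact hs.mul ha.2
  have hinj : Set.InjOn (fun a => (s * a) % 2 ^ p) (Od p : Set ℕ) := by
    intro a ha b hb hab
    simp only [Od, coe_filter, mem_range, Set.mem_setOf_eq] at ha hb hab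
    have hc : Nat.Coprime (2 ^ p) s := (Nat.coprime_pow_left_iff (by omega) _ _).2
      ((Nat.coprime_two_left).2 hs)
    have h1 : s * a ≡ s * b [MOD 2 ^ p] := hab
    have h2 : a ≡ b [MOD 2 ^ p] := Nat.ModEq.cancel_left_of_coprime hc h1
    have h3 : a % 2 ^ p = b % 2 ^ p := h2
    rw [Nat.mod_eq_of_lt ha.1, Nat.mod_eq_of_lt hb.1] at h3
    exact h3
  have himg : (Od p).image (fun a => (s * a) % 2 ^ p) = Od p := by
    apply eq_of_subset_of_card_le
    · intro m hm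
      rw [mem_image] at hm
      obtain ⟨a, ha, rfl⟩ := hm
      exact hmaps a ha
    · rw [card_image_of_injOn hinj]
  conv_rhs => rw [← himg]
  rw [sum_image hinj]

theorem mod_iff {p s a l : ℕ} (hp : 1 ≤ p) (hs : Odd s) (ha : a < 2 ^ p) :
    (s * l) % 2 ^ p = (s * a) % 2 ^ p ↔ l % 2 ^ p = a := by
  have hc : Nat.Coprime (2 ^ p) s := (Nat.coprime_pow_left_iff (by omega) _ _).2
    ((Nat.coprime_two_left).2 hs)
  constructor
  · intro h
    have h1 : s * l ≡ s * a [MOD 2 ^ p] := h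
    have h2 : l ≡ a [MOD 2 ^ p] := Nat.ModEq.cancel_left_of_coprime hc h1
    have h3 : l % 2 ^ p = a % 2 ^ p := h2
    rw [h3, Nat.mod_eq_of_lt ha]
  · intro h
    rw [Nat.mul_mod, h, Nat.mul_mod s a, Nat.mod_eq_of_lt ha]

end Pool.Agent.H469R10.DYV
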