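import Pool.Agent.H469R10.DYV.V1

set_option autoImplicit false

open Finset

namespace Pool.Agent.H469R10.DYV

open Pool.Agent.H555R4.LW (rp sp StA)
open Pool.Agent.H555R4.LW.U1 (sp_mul_rp)
open Pool.Agent.H555R4.DY

/-- the smooth parts used -/
def F (q : ℕ) : Finset ℕ := (Icc 1 (2 ^ (q / 2))).filter (fun s => Odd s ∧ sp q s = s)

def Nm (p q m : ℕ) : ℝ :=
  (((range (2 ^ q)).filter (fun n => n % 2 ^ p = m ∧ (rp q n).Prime)).card : ℝ)

def N2 (p q m : ℕ) : ℝ :=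
  (((range (2 ^ q)).filter (fun n => (n % 2 ^ p = m ∧ (rp q n).Prime) ∧
    ¬ sp q n ≤ 2 ^ (q / 2))).card : ℝ)

def T (p q s m : ℕ) : ℝ :=
  (((Icc 1 ((2 ^ q - 1) / s)).filter (fun l => l.Prime ∧ (s * l) % 2 ^ p = m)).card : ℝ)

def Ee (p q s m : ℕ) : ℝ :=
  (((Icc 1 ((2 ^ q - 1) / s)).filter
    (fun l => (l.Prime ∧ (s * l) % 2 ^ p = m) ∧ l ≤ q)).card : ℝ)

noncomputable def Po (p q s : ℕ) : ℝ :=
  (1 / 2 ^ (p - 1)) * (((Icc 1 ((2 ^ q - 1) / s)).filter (fun l => l.Prime ∧ Odd l)).card : ℝ)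

theorem decomp {p q m : ℕ} (hp : 1 ≤ p) (hm : m ∈ Od p) :
    Nm p q m = ∑ s ∈ F q, (T p q s m - Ee p q s m) + N2 p q m := by
  have hmo : Odd m := (mem_filter.1 hm).2
  have h1 : ((range (2 ^ q)).filter (fun n => n % 2 ^ p = m ∧ (rp q n).Prime)).card =
      ((range (2 ^ q)).filter (fun n => (n % 2 ^ p = m ∧ (rp q n).Prime) ∧
        sp q n ≤ 2 ^ (q / 2))).card +
      ((range (2 ^ q)).filter (fun n => (n % 2 ^ p = m ∧ (rp q n).Prime) ∧
        ¬ sp q n ≤ 2 ^ (q / 2))).card := by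
    have h := card_filter_add_card_filter_not
      (s := (range (2 ^ q)).filter (fun n => n % 2 ^ p = m ∧ (rp q n).Prime))
      (fun n => sp q n ≤ 2 ^ (q / 2))
    rw [filter_filter, filter_filter] at h
    exact h.symm
  have h2 : ((range (2 ^ q)).filter (fun n => (n % 2 ^ p = m ∧ (rp q n).Prime) ∧
        sp q n ≤ 2 ^ (q / 2))).card = ∑ s ∈ F q,
      ((range (2 ^ q)).filter (fun n => (n % 2 ^ p = m ∧ (rp q n).Prime) ∧ sp q n = s)).card := by
    rw [card_eq_sum_card_fiberwise (f := sp q) (t := F q)]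
    · apply sum_congr rfl
      intro s hs
      congr 1
      rw [filter_filter]
      apply filter_congr
      intro n _
      have h3 : s ≤ 2 ^ (q / 2) := (mem_Icc.1 (mem_filter.1 hs).1).2
      constructor
      · rintro ⟨⟨ha, _⟩, hb⟩
        exact ⟨ha, hb⟩
      · rintro ⟨ha, hb⟩
        exact ⟨⟨ha, by rw [hb]; exact h3⟩, hb⟩
    · intro n hn
      simp only [coe_filter, mem_range, Set.mem_setOf_eq] at hn
      obtain ⟨hn1, ⟨hn2, hn3⟩, hn4⟩ := hn
      have hodd : Odd n := by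
        have h2 : 2 ∣ 2 ^ p := dvd_pow_self 2 (by omega)
        rw [Nat.odd_iff, ← Nat.mod_mod_of_dvd _ h2, hn2, ← Nat.odd_iff]
        exact hmo
      have hn0 : n ≠ 0 := hodd.pos.ne'
      have h0 := sp_mul_rp q n hn0
      have hs : sp q n ≠ 0 := by
        intro h1
        rw [h1, zero_mul] at h0
        exact hn0 h0.symm
      simp only [F, coe_filter, mem_Icc, Set.mem_setOf_eq]
      refine ⟨⟨Nat.one_le_iff_ne_zero.2 hs, hn4⟩, ?_, sp_sp hn0 hn3⟩
      have h9 : Odd (sp q n * rp q n) := by rw [h0]; exact hodd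
      exact (Nat.odd_mul.1 h9).1
  have h3 : ∀ s ∈ F q, (((range (2 ^ q)).filter (fun n => (n % 2 ^ p = m ∧ (rp q n).Prime) ∧
      sp q n = s)).card : ℝ) = T p q s m - Ee p q s m := by
    intro s hs
    obtain ⟨h4, h5, h6⟩ := mem_filter.1 hs
    rw [fiber_card (mem_Icc.1 h4).1 h6]
    have h7 : ((Icc 1 ((2 ^ q - 1) / s)).filter
        (fun l => l.Prime ∧ (s * l) % 2 ^ p = m)).card =
        ((Icc 1 ((2 ^ q - 1) / s)).filter
          (fun l => (l.Prime ∧ (s * l) % 2 ^ p = m) ∧ l ≤ q)).card +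
        ((Icc 1 ((2 ^ q - 1) / s)).filter
          (fun l => (l.Prime ∧ (s * l) % 2 ^ p = m) ∧ ¬ l ≤ q)).card := by
      have h := card_filter_add_card_filter_not
        (s := (Icc 1 ((2 ^ q - 1) / s)).filter (fun l => l.Prime ∧ (s * l) % 2 ^ p = m))
        (fun l => l ≤ q)
      rw [filter_filter, filter_filter] at h
      exact h.symm
    unfold T Ee
    rw [h7]
    push_cast
    ring
  unfold Nm N2
  rw [h1, h2]
  push_cast
  rw [sum_congr rfl h3]

theorem Tvar {p q s : ℕ} (hp : 1 ≤ p) (hs : s ∈ F q) :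
    ∑ m ∈ Od p, (T p q s m - Po p q s) ^ 2 =
      ∑ a ∈ (range (2 ^ p)).filter (fun a => Odd a),
      ((((Icc 1 ((2 ^ q - 1) / s)).filter (fun n => n.Prime ∧ n % 2 ^ p = a)).card : ℝ) -
        (1 / 2 ^ (p - 1)) *
          (((Icc 1 ((2 ^ q - 1) / s)).filter (fun n => n.Prime ∧ Odd n)).card : ℝ)) ^ 2 := by
  obtain ⟨h4, h5, h6⟩ := mem_filter.1 hs
  rw [← sum_perm hp h5 (fun m => (T p q s m - Po p q s) ^ 2)]
  apply sum_congr rfl
  intro a ha
  have ha1 : a < 2 ^ p := mem_range.1 (mem_filter.1 ha).1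
  have h7 : T p q s ((s * a) % 2 ^ p) =
      (((Icc 1 ((2 ^ q - 1) / s)).filter (fun n => n.Prime ∧ n % 2 ^ p = a)).card : ℝ) := by
    unfold T
    congr 2
    apply filter_congr
    intro l _
    rw [mod_iff hp h5 ha1]
  rw [h7]
  rfl

theorem card_F (q : ℕ) : (F q).card ≤ 2 ^ (q / 2) := by
  calc (F q).card ≤ (Icc 1 (2 ^ (q / 2))).card := card_filter_le _ _
    _ = 2 ^ (q / 2) := by simp

theorem Ee_nonneg (p q s m : ℕ) : 0 ≤ Ee p q s m := by
  unfold Ee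
  positivity

theorem sum_Ee {p q s : ℕ} : ∑ m ∈ Od p, Ee p q s m ≤ q := by
  unfold Ee
  have h : ∑ m ∈ Od p, ((Icc 1 ((2 ^ q - 1) / s)).filter
      (fun l => (l.Prime ∧ (s * l) % 2 ^ p = m) ∧ l ≤ q)).card ≤ q := by
    calc ∑ m ∈ Od p, ((Icc 1 ((2 ^ q - 1) / s)).filter
          (fun l => (l.Prime ∧ (s * l) % 2 ^ p = m) ∧ l ≤ q)).card
        ≤ ∑ m ∈ Od p, ((Icc 1 q).filter (fun l => (s * l) % 2 ^ p = m)).card := by
          apply sum_le_sum
          intro m _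
          apply card_le_card
          intro l hl
          simp only [mem_filter, mem_Icc] at hl ⊢
          exact ⟨⟨hl.1.1, hl.2.2⟩, hl.2.1.2⟩
      _ ≤ ∑ m ∈ range (2 ^ p), ((Icc 1 q).filter (fun l => (s * l) % 2 ^ p = m)).card := by
          apply sum_le_sum_of_subset
          exact filter_subset _ _
      _ = (Icc 1 q).card := by
          rw [← card_eq_sum_card_fiberwise (f := fun l => (s * l) % 2 ^ p)]
          intro l _
          simp only [coe_range, Set.mem_Iio]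
          exact Nat.mod_lt _ (by positivity)
      _ = q := by simp
  exact_mod_cast h

theorem N2_nonneg (p q m : ℕ) : 0 ≤ N2 p q m := by
  unfold N2
  positivity

theorem N2_le {p q m : ℕ} (hpq : p ≤ q) : N2 p q m ≤ 2 ^ (q - p) := by
  unfold N2
  have h : ((range (2 ^ q)).filter (fun n => (n % 2 ^ p = m ∧ (rp q n).Prime) ∧
    ¬ sp q n ≤ 2 ^ (q / 2))).card ≤ 2 ^ (q - p) := by
    refine le_trans (card_le_card ?_) (card_class (m := m) hpq)
    intro n hn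
    simp only [mem_filter] at hn ⊢
    exact ⟨hn.1, hn.2.1.1⟩
  exact_mod_cast h

theorem sum_N2 {p q : ℕ} : ∑ m ∈ Od p, N2 p q m ≤
    (((Ico 0 (0 + 2 ^ q)).filter (fun n => 0 < n ∧ 2 ^ (q / 4) < sp q n)).card : ℝ) := by
  unfold N2
  have h : ∑ m ∈ Od p, ((range (2 ^ q)).filter (fun n => (n % 2 ^ p = m ∧ (rp q n).Prime) ∧
      ¬ sp q n ≤ 2 ^ (q / 2))).card ≤
      ((Ico 0 (0 + 2 ^ q)).filter (fun n => 0 < n ∧ 2 ^ (q / 4) < sp q n)).card := by
    calc ∑ m ∈ Od p, ((range (2 ^ q)).filter (fun n => (n % 2 ^ p = m ∧ (rp q n).Prime) ∧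
          ¬ sp q n ≤ 2 ^ (q / 2))).card
        ≤ ∑ m ∈ Od p, (((Ico 0 (0 + 2 ^ q)).filter
            (fun n => 0 < n ∧ 2 ^ (q / 4) < sp q n)).filter (fun n => n % 2 ^ p = m)).card := by
          apply sum_le_sum
          intro m _
          apply card_le_card
          intro n hn
          simp only [mem_filter, mem_range, mem_Ico, not_le] at hn ⊢
          obtain ⟨h1, ⟨h2, h3⟩, h4⟩ := hn
          refine ⟨⟨⟨by omega, by omega⟩, ?_, ?_⟩, h2⟩
          · rw [Nat.pos_iff_ne_zero]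
            rintro rfl
            simp [rp] at h3
            exact absurd h3 (by decide)
          · refine lt_of_le_of_lt ?_ h4
            exact Nat.pow_le_pow_right (by norm_num) (by omega)
      _ ≤ ∑ m ∈ range (2 ^ p), (((Ico 0 (0 + 2 ^ q)).filter
            (fun n => 0 < n ∧ 2 ^ (q / 4) < sp q n)).filter (fun n => n % 2 ^ p = m)).card := by
          apply sum_le_sum_of_subset
          exact filter_subset _ _
      _ = _ := by
          rw [← card_eq_sum_card_fiberwise (f := fun n => n % 2 ^ p)]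
          intro l _
          simp only [coe_range, Set.mem_Iio]
          exact Nat.mod_lt _ (by positivity)
  exact_mod_cast h

theorem sum_Nm {p q : ℕ} (hp : 1 ≤ p) : ∑ m ∈ Od p, Nm p q m = (cB q : ℝ) := by
  unfold Nm cB
  have h : ∑ m ∈ Od p, ((range (2 ^ q)).filter (fun n => n % 2 ^ p = m ∧ (rp q n).Prime)).card =
      ((range (2 ^ q)).filter (fun n => Odd n ∧ (rp q n).Prime)).card := by
    have h2 : 2 ∣ 2 ^ p := dvd_pow_self 2 (by omega)
    rw [card_eq_sum_card_fiberwise (f := fun n => n % 2 ^ p) (t := Od p)]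
    · apply sum_congr rfl
      intro m hm
      congr 1
      rw [filter_filter]
      apply filter_congr
      intro n _
      have hmo : Odd m := (mem_filter.1 hm).2
      constructor
      · rintro ⟨ha, hb⟩
        refine ⟨⟨?_, hb⟩, ha⟩
        rw [Nat.odd_iff, ← Nat.mod_mod_of_dvd _ h2, ha, ← Nat.odd_iff]
        exact hmo
      · rintro ⟨⟨_, hb⟩, ha⟩
        exact ⟨ha, hb⟩
    · intro n hn
      simp only [coe_filter, mem_range, Set.mem_setOf_eq] at hn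
      simp only [Od, coe_filter, mem_range, Set.mem_setOf_eq]
      refine ⟨Nat.mod_lt _ (by positivity), ?_⟩
      rw [Nat.odd_iff, Nat.mod_mod_of_dvd _ h2, ← Nat.odd_iff]
      exact hn.2.1
  exact_mod_cast h

theorem core {p q : ℕ} (hp : 1 ≤ p) (hpq : p ≤ q) {W H R : ℝ} (hW : 0 ≤ W)
    (hZ : ∀ s ∈ F q, ∑ m ∈ Od p, (T p q s m - Po p q s) ^ 2 ≤ ((2 : ℝ) ^ q / s) ^ 2 * W)
    (hH : ∑ s ∈ F q, 1 / (s : ℝ) ≤ H)
    (hR : ∑ m ∈ Od p, N2 p q m ≤ R) :
    ∑ m ∈ Od p, (Nm p q m - (1 / 2 ^ (p - 1)) * (cB q : ℝ)) ^ 2 ≤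
      3 * (H ^ 2 * ((2 : ℝ) ^ q) ^ 2 * W + ((2 : ℝ) ^ (q / 2) * q) ^ 2 + 2 ^ (q - p) * R) := by
  have hH0 : 0 ≤ H := le_trans (sum_nonneg fun s _ => by positivity) hH
  have hpos : ∀ s ∈ F q, (0 : ℝ) < s := by
    intro s hs
    have := (mem_Icc.1 (mem_filter.1 hs).1).1
    exact_mod_cast this
  have h1 : ∑ m ∈ Od p, (Nm p q m - (1 / 2 ^ (p - 1)) * (cB q : ℝ)) ^ 2 ≤
      ∑ m ∈ Od p, (Nm p q m - ∑ s ∈ F q, Po p q s) ^ 2 := by
    apply var_le
    rw [card_Od hp, sum_Nm hp]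
    push_cast
    field_simp
  have h2 : ∀ m ∈ Od p, (Nm p q m - ∑ s ∈ F q, Po p q s) ^ 2 ≤
      3 * ((∑ s ∈ F q, (T p q s m - Po p q s)) ^ 2 + (∑ s ∈ F q, Ee p q s m) ^ 2 +
        (N2 p q m) ^ 2) := by
    intro m hm
    rw [decomp hp hm, sum_sub_distrib, sum_sub_distrib]
    set x := ∑ s ∈ F q, T p q s m
    set y := ∑ s ∈ F q, Ee p q s m
    set z := N2 p q m
    set w := ∑ s ∈ F q, Po p q s
    nlinarith [sq_nonneg ((x - w) + y), sq_nonneg (y + z), sq_nonneg ((x - w) - z)]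
  have ha : ∑ m ∈ Od p, (∑ s ∈ F q, (T p q s m - Po p q s)) ^ 2 ≤
      H ^ 2 * ((2 : ℝ) ^ q) ^ 2 * W := by
    have h3 : ∀ m ∈ Od p, (∑ s ∈ F q, (T p q s m - Po p q s)) ^ 2 ≤
        (∑ s ∈ F q, 1 / (s : ℝ)) * ∑ s ∈ F q, (s : ℝ) * (T p q s m - Po p q s) ^ 2 := by
      intro m _
      apply sum_sq_le_sum_mul_sum_of_sq_eq_mul
      · intro s hs
        have := hpos s hs
        positivity
      · intro s hs
        have := hpos s hs
        positivity
      · intro s hs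
        have := hpos s hs
        field_simp
    calc ∑ m ∈ Od p, (∑ s ∈ F q, (T p q s m - Po p q s)) ^ 2
        ≤ ∑ m ∈ Od p, (∑ s ∈ F q, 1 / (s : ℝ)) *
            ∑ s ∈ F q, (s : ℝ) * (T p q s m - Po p q s) ^ 2 := sum_le_sum h3
      _ = (∑ s ∈ F q, 1 / (s : ℝ)) *
            ∑ s ∈ F q, (s : ℝ) * ∑ m ∈ Od p, (T p q s m - Po p q s) ^ 2 := by
          rw [← mul_sum, sum_comm]
          congr 1
          apply sum_congr rfl
          intro s _
          rw [mul_sum]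
      _ ≤ (∑ s ∈ F q, 1 / (s : ℝ)) *
            ∑ s ∈ F q, (1 / (s : ℝ)) * (((2 : ℝ) ^ q) ^ 2 * W) := by
          apply mul_le_mul_of_nonneg_left _ (sum_nonneg fun s _ => by positivity)
          apply sum_le_sum
          intro s hs
          have hs0 := hpos s hs
          calc (s : ℝ) * ∑ m ∈ Od p, (T p q s m - Po p q s) ^ 2
              ≤ (s : ℝ) * (((2 : ℝ) ^ q / s) ^ 2 * W) :=
                mul_le_mul_of_nonneg_left (hZ s hs) hs0.le
            _ = (1 / (s : ℝ)) * (((2 : ℝ) ^ q) ^ 2 * W) := by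
                field_simp
      _ = (∑ s ∈ F q, 1 / (s : ℝ)) ^ 2 * (((2 : ℝ) ^ q) ^ 2 * W) := by
          rw [← sum_mul]
          ring
      _ ≤ H ^ 2 * (((2 : ℝ) ^ q) ^ 2 * W) := by
          apply mul_le_mul_of_nonneg_right _ (by positivity)
          exact pow_le_pow_left₀ (sum_nonneg fun s _ => by positivity) hH 2
      _ = _ := by ring
  have hb : ∑ m ∈ Od p, (∑ s ∈ F q, Ee p q s m) ^ 2 ≤ ((2 : ℝ) ^ (q / 2) * q) ^ 2 := by
    have h4 : ∑ m ∈ Od p, ∑ s ∈ F q, Ee p q s m ≤ (2 : ℝ) ^ (q / 2) * q := by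
      rw [sum_comm]
      calc ∑ s ∈ F q, ∑ m ∈ Od p, Ee p q s m ≤ ∑ s ∈ F q, (q : ℝ) :=
            sum_le_sum fun s _ => sum_Ee
        _ = (F q).card * (q : ℝ) := by rw [sum_const, nsmul_eq_mul]
        _ ≤ (2 : ℝ) ^ (q / 2) * q := by
            apply mul_le_mul_of_nonneg_right _ (by positivity)
            exact_mod_cast card_F q
    have h5 : ∀ m ∈ Od p, 0 ≤ ∑ s ∈ F q, Ee p q s m := fun m _ =>
      sum_nonneg fun s _ => Ee_nonneg p q s m
    calc ∑ m ∈ Od p, (∑ s ∈ F q, Ee p q s m) ^ 2 ≤ (∑ m ∈ Od p, ∑ s ∈ F q, Ee p q s m) ^ 2 := by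
          rw [sq (∑ m ∈ Od p, ∑ s ∈ F q, Ee p q s m), sum_mul]
          apply sum_le_sum
          intro m hm
          rw [sq]
          exact mul_le_mul_of_nonneg_left (single_le_sum h5 hm) (h5 m hm)
      _ ≤ _ := pow_le_pow_left₀ (sum_nonneg h5) h4 2
  have hd : ∑ m ∈ Od p, (N2 p q m) ^ 2 ≤ 2 ^ (q - p) * R := by
    calc ∑ m ∈ Od p, (N2 p q m) ^ 2 ≤ ∑ m ∈ Od p, 2 ^ (q - p) * N2 p q m := by
          apply sum_le_sum
          intro m _
          rw [sq]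
          exact mul_le_mul_of_nonneg_right (N2_le hpq) (N2_nonneg _ _ _)
      _ = 2 ^ (q - p) * ∑ m ∈ Od p, N2 p q m := by rw [mul_sum]
      _ ≤ _ := mul_le_mul_of_nonneg_left hR (by positivity)
  calc ∑ m ∈ Od p, (Nm p q m - (1 / 2 ^ (p - 1)) * (cB q : ℝ)) ^ 2
      ≤ ∑ m ∈ Od p, 3 * ((∑ s ∈ F q, (T p q s m - Po p q s)) ^ 2 + (∑ s ∈ F q, Ee p q s m) ^ 2 +
        (N2 p q m) ^ 2) := h1.trans (sum_le_sum h2)
    _ = 3 * (∑ m ∈ Od p, (∑ s ∈ F q, (T p q s m - Po p q s)) ^ 2 +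
        ∑ m ∈ Od p, (∑ s ∈ F q, Ee p q s m) ^ 2 + ∑ m ∈ Od p, (N2 p q m) ^ 2) := by
        rw [← mul_sum, sum_add_distrib, sum_add_distrib]
    _ ≤ _ := by linarith

end Pool.Agent.H469R10.DYV
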