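import Pool.Agent.H469R10.DYV.V2

set_option autoImplicit false

open Finset Filter

namespace Pool.Agent.H469R10.DYV

open Pool.Agent.H555R4.LW (rp sp StA)
open Pool.Agent.H555R4.DY

theorem pow_small (k : ℕ) : ∃ q₀ : ℕ, ∀ q : ℕ, q₀ ≤ q → 9 * (q : ℝ) ^ k ≤ 2 ^ (q / 16) := by
  have h := tendsto_pow_const_div_const_pow_of_one_lt k (r := (2 : ℝ)) one_lt_two
  have h2 : (0 : ℝ) < 1 / (9 * 31 ^ k) := by positivity
  obtain ⟨t0, ht0⟩ := eventually_atTop.1 (h.eventually (gt_mem_nhds h2))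
  refine ⟨16 * (t0 + 1), fun q hq => ?_⟩
  have ht : t0 ≤ q / 16 := by omega
  have ht1 : 1 ≤ q / 16 := by omega
  have h3 := ht0 (q / 16) ht
  rw [div_lt_div_iff₀ (by positivity) (by positivity)] at h3
  have h4 : (q : ℝ) ≤ 31 * ((q / 16 : ℕ) : ℝ) := by
    have : q ≤ 31 * (q / 16) := by omega
    exact_mod_cast this
  calc 9 * (q : ℝ) ^ k ≤ 9 * (31 * ((q / 16 : ℕ) : ℝ)) ^ k := by gcongr
    _ = ((q / 16 : ℕ) : ℝ) ^ k * (9 * 31 ^ k) := by rw [mul_pow]; ring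
    _ ≤ 2 ^ (q / 16) := by linarith

theorem harm (q : ℕ) (hq : 2 ≤ q) : ∑ s ∈ F q, 1 / (s : ℝ) ≤ q := by
  have h1 : ∑ s ∈ F q, 1 / (s : ℝ) ≤ ∑ s ∈ (Icc 1 (2 ^ (q / 2)) : Finset ℕ), 1 / (s : ℝ) := by
    apply sum_le_sum_of_subset_of_nonneg (filter_subset _ _)
    intro s _ _
    positivity
  have h2 := harmonic_le_one_add_log (2 ^ (q / 2))
  rw [harmonic_eq_sum_Icc] at h2
  push_cast at h2
  rw [Real.log_pow] at h2
  have h3 : ((q / 2 : ℕ) : ℝ) ≤ q / 2 := Nat.cast_div_le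
  have h4 : Real.log 2 ≤ 1 := by
    have := Real.log_two_lt_d9
    linarith
  have h5 : ((q / 2 : ℕ) : ℝ) * Real.log 2 ≤ q / 2 := by
    calc ((q / 2 : ℕ) : ℝ) * Real.log 2 ≤ ((q / 2 : ℕ) : ℝ) * 1 := by gcongr
      _ ≤ q / 2 := by rw [mul_one]; exact h3
  have h6 : (2 : ℝ) ≤ q := by exact_mod_cast hq
  have h7 : ∑ s ∈ (Icc 1 (2 ^ (q / 2)) : Finset ℕ), 1 / (s : ℝ) =
      ∑ s ∈ (Icc 1 (2 ^ (q / 2)) : Finset ℕ), (s : ℝ)⁻¹ := by
    apply sum_congr rfl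
    intro s _
    rw [one_div]
  rw [h7] at h1
  linarith

theorem taskV : Pool.Agent.H555R4.DY.TaskV := by
  intro hZ5 hA A
  obtain ⟨X0, hX⟩ := hZ5 (A + 3)
  obtain ⟨p0, hp0⟩ := hA
  obtain ⟨N, hN⟩ := exists_nat_ge X0
  obtain ⟨q1, hq1⟩ := pow_small (A + 2)
  obtain ⟨q2, hq2⟩ := eventually_atTop.1 ((Real.tendsto_log_atTop.comp
    tendsto_natCast_atTop_atTop).eventually (eventually_ge_atTop (4 : ℝ)))
  refine ⟨p0 + (2 * N + 2) + q1 + q2 + 9 * 4 ^ (A + 3) + 16, fun q hq p hp hpq6 => ?_⟩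
  have e1 : p0 ≤ q := by omega
  have e2 : 2 * N + 2 ≤ q := by omega
  have e3 : q1 ≤ q := by omega
  have e4 : q2 ≤ q := by omega
  have e5 : 9 * 4 ^ (A + 3) ≤ q := by omega
  have e6 : 16 ≤ q := by omega
  have f6 : (16 : ℝ) ≤ q := by exact_mod_cast e6
  have f5 : (9 : ℝ) * 4 ^ (A + 3) ≤ q := by exact_mod_cast e5
  have hlog : 4 ≤ Real.log q := hq2 q e4
  have hpow := hq1 q e3
  have hp1 : (1 : ℝ) ≤ p := by exact_mod_cast hp
  have hp4 : 4096 * (p : ℝ) ≤ q := by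
    have : (4 : ℝ) ^ 6 ≤ (Real.log q) ^ 6 := pow_le_pow_left₀ (by norm_num) hlog 6
    nlinarith
  have hp4' : 4096 * p ≤ q := by exact_mod_cast hp4
  have hpq : p ≤ q := by omega
  -- the classes
  have hZ : ∀ s ∈ F q, ∑ m ∈ Od p, (T p q s m - Po p q s) ^ 2 ≤
      ((2 : ℝ) ^ q / s) ^ 2 * (1 / (2 ^ p * ((q : ℝ) / 4) ^ (A + 3))) := by
    intro s hs
    rw [Tvar hp hs]
    have hs1 := mem_Icc.1 (mem_filter.1 hs).1
    have hs0 : (0 : ℝ) < s := by exact_mod_cast hs1.1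
    set x := (2 ^ q - 1) / s with hx
    have hx1 : 2 ^ (q / 2 - 1) ≤ x := by
      rw [hx, Nat.le_div_iff_mul_le hs1.1]
      have h1 : 2 ^ (q / 2 - 1) * s ≤ 2 ^ (q / 2 - 1) * 2 ^ (q / 2) :=
        Nat.mul_le_mul_left _ hs1.2
      have h2 : 2 ^ (q / 2 - 1) * 2 ^ (q / 2) ≤ 2 ^ (q - 1) := by
        rw [← pow_add]
        exact Nat.pow_le_pow_right (by norm_num) (by omega)
      have h3 : 2 ^ q = 2 * 2 ^ (q - 1) := by
        rw [← pow_succ']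
        congr 1
        omega
      have h4 : 0 < 2 ^ (q - 1) := by positivity
      omega
    have hx2 : (x : ℝ) ≤ (2 : ℝ) ^ q / s := by
      calc (x : ℝ) ≤ ((2 ^ q - 1 : ℕ) : ℝ) / s := Nat.cast_div_le
        _ ≤ (2 : ℝ) ^ q / s := by
            gcongr
            have : 2 ^ q - 1 ≤ 2 ^ q := Nat.sub_le _ _
            exact_mod_cast this
    have hx3 : (x : ℝ) ≤ (2 : ℝ) ^ q := by
      refine hx2.trans (div_le_self (by positivity) ?_)
      exact_mod_cast hs1.1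
    have hx1' : (2 : ℝ) ^ (q / 2 - 1) ≤ x := by exact_mod_cast hx1
    have hx0 : (0 : ℝ) < x := lt_of_lt_of_le (by positivity) hx1'
    have hX0 : X0 ≤ (x : ℝ) := by
      have h1 : N ≤ q / 2 - 1 := by omega
      have h2 : N ≤ 2 ^ (q / 2 - 1) := h1.trans (Nat.lt_two_pow_self).le
      have h3 : (N : ℝ) ≤ x := by exact_mod_cast h2.trans hx1
      linarith
    have hL1 : (q : ℝ) / 4 ≤ Real.log x := by
      have h1 : ((q / 2 - 1 : ℕ) : ℝ) * Real.log 2 ≤ Real.log x := by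
        rw [← Real.log_pow]
        exact Real.log_le_log (by positivity) hx1'
      have h2 : ((q : ℝ) - 3) / 2 ≤ ((q / 2 - 1 : ℕ) : ℝ) := by
        have h3 : q ≤ 2 * (q / 2 - 1) + 3 := by omega
        have h4 : (q : ℝ) ≤ 2 * ((q / 2 - 1 : ℕ) : ℝ) + 3 := by exact_mod_cast h3
        linarith
      have h5 := Real.log_two_gt_d9
      have h6 : ((q : ℝ) - 3) / 2 * 0.69 ≤ ((q / 2 - 1 : ℕ) : ℝ) * Real.log 2 := by
        apply mul_le_mul h2 (by linarith) (by norm_num) (by positivity)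
      linarith
    have hL2 : Real.log x ≤ q := by
      have h1 : Real.log x ≤ Real.log ((2 : ℝ) ^ q) := Real.log_le_log hx0 hx3
      rw [Real.log_pow] at h1
      have h2 := Real.log_two_lt_d9
      nlinarith
    have hL0 : 1 ≤ Real.log x := by linarith
    have hLL : Real.log (Real.log x) ≤ Real.log q := Real.log_le_log (by linarith) hL2
    have hLL0 : 0 ≤ Real.log (Real.log x) := Real.log_nonneg hL0
    have hcond : (p : ℝ) * (Real.log (Real.log x)) ^ 5 ≤ Real.log x := by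
      have h1 : (Real.log (Real.log x)) ^ 5 ≤ (Real.log q) ^ 5 := pow_le_pow_left₀ hLL0 hLL 5
      have h2 : (p : ℝ) * (Real.log q) ^ 5 * 4 ≤ (p : ℝ) * (Real.log q) ^ 6 := by
        have : (p : ℝ) * (Real.log q) ^ 6 = (p : ℝ) * (Real.log q) ^ 5 * Real.log q := by ring
        rw [this]
        apply mul_le_mul_of_nonneg_left hlog
        positivity
      have h3 : (p : ℝ) * (Real.log (Real.log x)) ^ 5 ≤ (p : ℝ) * (Real.log q) ^ 5 := by
        gcongr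
      linarith
    refine (hX x hX0 p hp hcond).trans ?_
    have h9 : ((x : ℝ)) ^ 2 / (2 ^ p * (Real.log x) ^ (A + 3)) =
        (x : ℝ) ^ 2 * (1 / (2 ^ p * (Real.log x) ^ (A + 3))) := by ring
    rw [h9]
    have hq4 : (0 : ℝ) < (q : ℝ) / 4 := by linarith
    gcongr
  have hR : ∑ m ∈ Od p, N2 p q m ≤ (2 : ℝ) ^ q / 2 ^ (q / 16) := by
    refine sum_N2.trans ?_
    have := hp0 q e1 0 (2 ^ q) (Nat.pow_le_pow_right (by norm_num) (by omega))
    refine this.trans (le_of_eq ?_)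
    push_cast
    rfl
  have hmain := core hp hpq (W := 1 / (2 ^ p * ((q : ℝ) / 4) ^ (A + 3))) (by positivity) hZ
    (harm q (by omega)) hR
  refine le_trans hmain ?_
  have hq0 : (0 : ℝ) < q := by linarith
  set Q : ℝ := (2 : ℝ) ^ q with hQ
  set P : ℝ := (2 : ℝ) ^ p with hP
  have hQ0 : 0 < Q := by positivity
  have hP0 : 0 < P := by positivity
  have hqA : (0 : ℝ) < (q : ℝ) ^ A := by positivity
  have t1 : (q : ℝ) ^ 2 * Q ^ 2 * (1 / (P * ((q : ℝ) / 4) ^ (A + 3))) ≤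
      (1 / 9) * (Q ^ 2 / (P * (q : ℝ) ^ A)) := by
    have h1 : (q : ℝ) ^ 2 * Q ^ 2 * (1 / (P * ((q : ℝ) / 4) ^ (A + 3))) =
        (4 ^ (A + 3) / q) * (Q ^ 2 / (P * (q : ℝ) ^ A)) := by
      rw [div_pow]
      field_simp
      ring
    rw [h1]
    apply mul_le_mul_of_nonneg_right _ (by positivity)
    rw [div_le_div_iff₀ hq0 (by norm_num)]
    linarith
  have t2 : ((2 : ℝ) ^ (q / 2) * q) ^ 2 ≤ (1 / 9) * (Q ^ 2 / (P * (q : ℝ) ^ A)) := by
    have h1 : ((2 : ℝ) ^ (q / 2)) ^ 2 ≤ Q := by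
      rw [hQ, ← pow_mul]
      exact pow_le_pow_right₀ (by norm_num) (by omega)
    have h2 : 9 * (q : ℝ) ^ (A + 2) * P ≤ Q := by
      calc 9 * (q : ℝ) ^ (A + 2) * P ≤ 2 ^ (q / 16) * 2 ^ p := by
            rw [hP]
            gcongr
        _ = (2 : ℝ) ^ (q / 16 + p) := by rw [pow_add]
        _ ≤ Q := pow_le_pow_right₀ (by norm_num) (by omega)
    calc ((2 : ℝ) ^ (q / 2) * q) ^ 2 = ((2 : ℝ) ^ (q / 2)) ^ 2 * (q : ℝ) ^ 2 := by ring
      _ ≤ Q * (q : ℝ) ^ 2 := by gcongr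
      _ ≤ (1 / 9) * (Q ^ 2 / (P * (q : ℝ) ^ A)) := by
          rw [← mul_div_assoc, le_div_iff₀ (by positivity)]
          have h3 : Q * (q : ℝ) ^ 2 * (P * (q : ℝ) ^ A) =
              (1 / 9) * (Q * (9 * (q : ℝ) ^ (A + 2) * P)) := by ring
          rw [h3, sq Q]
          gcongr
  have t3 : (2 : ℝ) ^ (q - p) * (Q / 2 ^ (q / 16)) ≤ (1 / 9) * (Q ^ 2 / (P * (q : ℝ) ^ A)) := by
    have h1 : (2 : ℝ) ^ (q - p) = Q / P := by
      rw [eq_div_iff hP0.ne', hP, hQ, ← pow_add]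
      congr 1
      omega
    have h2 : 9 * (q : ℝ) ^ A ≤ 2 ^ (q / 16) := by
      refine le_trans ?_ hpow
      have h3 : (q : ℝ) ^ A ≤ (q : ℝ) ^ (A + 2) := pow_le_pow_right₀ (by linarith) (by omega)
      linarith
    rw [h1]
    have h4 : Q / P * (Q / 2 ^ (q / 16)) = Q ^ 2 / (P * 2 ^ (q / 16)) := by
      field_simp
    have h5 : (1 / 9) * (Q ^ 2 / (P * (q : ℝ) ^ A)) = Q ^ 2 / (P * (9 * (q : ℝ) ^ A)) := by
      field_simp
    rw [h4, h5]
    gcongr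
  linarith

end Pool.Agent.H469R10.DYV
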